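import Pool.Agent.Lib.MP_0a3b9a_nt.F3

set_option autoImplicit false

/-!
Complete answer to Q1 of MP_0a3b9a_nt, for all primes `p ≡ 1, 3 (mod 8)`, `p ≠ 3`:
`S_1(p) ≡ ε_p S_2(p) (mod p^2)` always, `S_1(p) ≡ R(p) (mod p^2)` for `p ≡ 1, 17, 19 (mod 24)`, and
`S_1(p) ≡ -R(p) (mod p^2)`, `S_1(p) ≢ R(p) (mod p)` for `p ≡ 11 (mod 24)`.
The proof is elementary; it is in `Pool/Agent/Lib/MP_0a3b9a_nt/`.
-/

namespace Pool.Agent.Results.MP_0a3b9a_nt.CompleteEvaluation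

/-- The binomial coefficient `a (a-1) ... (a-k+1) / k!` of a rational number `a`. -/
def qbinom (a : ℚ) (k : ℕ) : ℚ := (∏ i ∈ Finset.range k, (a - i)) / (k.factorial : ℚ)

/-- The sum `S_1(p)`. -/
def S1 (p : ℕ) : ℚ :=
  ∑ k ∈ Finset.range p, qbinom (-1/3) k * qbinom (-1/6) k * (27/2 : ℚ) ^ k

/-- The sum `S_2(p)`. -/
def S2 (p : ℕ) : ℚ :=
  ∑ k ∈ Finset.range p, qbinom (-2/3) k * qbinom (-5/6) k * (27/2 : ℚ) ^ k

/-- Congruence modulo `m` in the ring of rationals whose denominator is prime to the prime `p`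
(used with `m = p` and `m = p^2`): `x - y = m z` with the denominator of `z` prime to `p`. -/
def CongMod (p m : ℕ) (x y : ℚ) : Prop := ∃ z : ℚ, ¬ p ∣ z.den ∧ x - y = m * z

/-- The Legendre symbol at `p` of (the residue modulo `p` of) a rational number. -/
def leg (p : ℕ) [Fact p.Prime] (r : ℚ) : ℤ := quadraticChar (ZMod p) (r : ZMod p)

/-- `ε_p`. -/
def eps (p : ℕ) : ℚ := if p % 3 = 1 then 1 else -25 / 2

/-- The right-hand side `R(p)` of the problem, for a representation `p = c^2 + 2 d^2`. -/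
def R (p : ℕ) [Fact p.Prime] (c d : ℤ) : ℚ :=
  if p % 24 = 1 ∨ p % 24 = 19 then
    (-1 : ℚ) ^ (p / 8) * (leg p (-2 - (c : ℚ) / d) : ℚ) * (2 * c - (p : ℚ) / (2 * c))
  else
    (-1 : ℚ) ^ (p / 8) * (leg p (2 + (c : ℚ) / d) : ℚ) * (10 * d - 5 * (p : ℚ) / (4 * d))

/-- The displayed statement of Q1. -/
def DisplayedQ1 : Prop :=
  ∀ (p : ℕ) [Fact p.Prime], (p % 8 = 1 ∨ p % 8 = 3) → p ≠ 3 →
    ∀ c d : ℤ, (p : ℤ) = c ^ 2 + 2 * d ^ 2 → c % 4 = 1 →
      CongMod p (p ^ 2) (S1 p) (eps p * S2 p) ∧ CongMod p (p ^ 2) (S1 p) (R p c d)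

variable {p : ℕ} [Fact p.Prime]

theorem qbinom_eq : qbinom = SCong.qbinom := rfl
theorem S1_eq : S1 = SCong.S1 := rfl
theorem S2_eq : S2 = SCong.S2 := rfl
theorem CongMod_eq : CongMod = SCong.CongMod := rfl
theorem eps_eq : eps = SCong.eps := rfl
theorem R_eq (c d : ℤ) : R p c d = SCong.R p c d := rfl

/-- existence of the normalised representation. -/
theorem rep (h8 : p % 8 = 1 ∨ p % 8 = 3) : ∃ c d : ℤ, (p : ℤ) = c ^ 2 + 2 * d ^ 2 ∧ c % 4 = 1 := by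
  have h : ∃ c d : ℤ, (p : ℤ) = c ^ 2 + 2 * d ^ 2 := by
    rcases h8 with h8 | h8
    · obtain ⟨c, d, h, -⟩ := SCong.rep_one (p := p) h8
      exact ⟨c, d, h⟩
    · obtain ⟨c, d, h, -⟩ := SCong.rep_three (p := p) h8
      exact ⟨c, d, h⟩
  obtain ⟨c, d, h⟩ := h
  have hodd : c % 4 = 1 ∨ c % 4 = 3 := by
    have h2 : (p : ℤ) % 2 = 1 := by omega
    by_contra hne
    have h3 : c % 2 = 0 := by omega
    have h4 : (2 : ℤ) ∣ p := by
      rw [h]
      exact dvd_add (dvd_pow (Int.dvd_of_emod_eq_zero h3) two_ne_zero) (Dvd.intro _ rfl)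
    omega
  rcases hodd with h4 | h4
  · exact ⟨c, d, h, h4⟩
  · exact ⟨-c, d, by rw [neg_sq]; exact h, by omega⟩

/-- the case `p ≡ 11 (mod 24)`. -/
theorem eleven (h11 : p % 24 = 11) {c d : ℤ} (hcd : (p : ℤ) = c ^ 2 + 2 * d ^ 2) (hc : c % 4 = 1) :
    CongMod p (p ^ 2) (S1 p) (-R p c d) ∧ ¬ CongMod p p (S1 p) (R p c d) := by
  have h8 : p % 8 = 1 ∨ p % 8 = 3 := by omega
  have hp3 : p ≠ 3 := by omega
  have hf := SCong.final h8 hp3 hcd hc
  obtain ⟨hc0, hd0⟩ := SCong.F3_units hcd (by omega)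
  have hleg := SCong.F3_leg (p := p) (c := c) hd0
  have hm3 : quadraticChar (ZMod p) (-1) = -1 := by
    rw [quadraticChar_neg_one (by rw [ZMod.ringChar_zmod_n]; omega), ZMod.card,
      ZMod.χ₄_nat_three_mod_four (by omega)]
  have hRR : (R p c d : ℚ) = -SCong.Rc p c d := by
    rw [R_eq]
    unfold SCong.R SCong.Rc
    rw [if_neg (by omega), if_neg (by omega), hleg.1, hleg.2, hm3]
    push_cast
    ring
  have hn : (-(c : ZMod p) / d - 2) ≠ 0 := by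
    have hρ : (-(c : ZMod p) / d) ^ 2 = -2 := by
      have h0 : ((c : ZMod p)) ^ 2 + 2 * (d : ZMod p) ^ 2 = 0 := by
        have := congrArg (fun t : ℤ => (t : ZMod p)) hcd
        push_cast at this
        rw [← this]; simp
      field_simp
      linear_combination h0
    intro h
    have h1 : (-(c : ZMod p) / d) = 2 := by linear_combination h
    rw [h1] at hρ
    have h6 : (2 : ZMod p) * 3 = 0 := by linear_combination hρ
    rcases mul_eq_zero.1 h6 with h | h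
    · exact (SCong.ne_of_five (p := p) (by omega)).1 h
    · exact (SCong.ne_of_five (p := p) (by omega)).2 h
  rw [hRR, neg_neg, CongMod_eq, S1_eq]
  refine ⟨hf.2.1, fun h => ?_⟩
  have h1 : SCong.Cg p 1 ((SCong.S1 p : ℚ) : ℚ_[p]) ((-SCong.Rc p c d : ℚ) : ℚ_[p]) :=
    (SCong.F3_cong_iff 1).1 (by rw [pow_one]; exact h)
  have h2 := (((SCong.F3_cong_iff 2).1 hf.2.1).mono (show 1 ≤ 2 by norm_num)).symm.trans h1
  obtain ⟨a, ha, hRa⟩ := SCong.F3_Rc_unit hcd (by omega) (by omega) hn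
  have h3 : SCong.Rd p ((-SCong.Rc p c d : ℚ) : ℚ_[p]) (-a) := by
    push_cast; exact hRa.neg
  have h4 := (hRa.cg_iff h3).1 h2
  have h5 : (2 : ZMod p) * a = 0 := by linear_combination h4
  rcases mul_eq_zero.1 h5 with h | h
  · exact (SCong.ne_of_five (p := p) (by omega)).1 h
  · exact ha h

/-- the displayed statement is false, because of `p = 11`. -/
theorem not_displayed : ¬ DisplayedQ1 := by
  intro h
  haveI : Fact (Nat.Prime 11) := ⟨by norm_num⟩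
  have h1 := (h 11 (Or.inr rfl) (by norm_num) (-3) 1 (by norm_num) (by norm_num)).2
  have h2 := (SCong.final (p := 11) (Or.inr rfl) (by norm_num) (c := -3) (d := 1) (by norm_num)
    (by norm_num)).2.2.1 h1
  exact h2 (by norm_num)

/-- Complete answer to Q1.  The displayed statement is false, and the truth is: for every prime
`p ≡ 1, 3 (mod 8)`, `p ≠ 3`, there is a normalised representation `p = c^2 + 2 d^2`,
`c ≡ 1 (mod 4)`, and for every such representation `S_1(p) ≡ ε_p S_2(p) (mod p^2)`;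
`S_1(p) ≡ R(p) (mod p^2)` if `p ≢ 11 (mod 24)`; and if `p ≡ 11 (mod 24)`, then
`S_1(p) ≡ -R(p) (mod p^2)` and `S_1(p) ≢ R(p)` already modulo `p`. -/
theorem result : ¬ DisplayedQ1 ∧
    ∀ (p : ℕ) [Fact p.Prime], (p % 8 = 1 ∨ p % 8 = 3) → p ≠ 3 →
      (∃ c d : ℤ, (p : ℤ) = c ^ 2 + 2 * d ^ 2 ∧ c % 4 = 1) ∧
      ∀ c d : ℤ, (p : ℤ) = c ^ 2 + 2 * d ^ 2 → c % 4 = 1 →
        CongMod p (p ^ 2) (S1 p) (eps p * S2 p) ∧
        (p % 24 ≠ 11 → CongMod p (p ^ 2) (S1 p) (R p c d)) ∧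
        (p % 24 = 11 → CongMod p (p ^ 2) (S1 p) (-R p c d) ∧ ¬ CongMod p p (S1 p) (R p c d)) :=
  ⟨not_displayed, fun _ _ h8 hp3 => ⟨rep h8, fun _ _ hcd hc => ⟨(SCong.final h8 hp3 hcd hc).1,
    (SCong.final h8 hp3 hcd hc).2.2.2, fun h11 => eleven h11 hcd hc⟩⟩⟩

end Pool.Agent.Results.MP_0a3b9a_nt.CompleteEvaluation
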